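import Pool.Agent.helper22.HA.Tri

/-! # The analogue of the question for `H_α`, `α > 1` -/

set_option autoImplicit false

namespace Pool.Agent.helper22.HA

open Finset Filter Topology

theorem omega_H (α K : ℝ) (hα : 0 < α) (hK : 0 < K) (h : K * (3 - 2 * α) < 1) (C : ℝ) (N : ℕ) :
    ∃ x z : ℕ, 0 < x ∧ x < z ∧ x.Coprime z ∧ N < z ∧
      C * Hal α (x * (z - x) * z) ^ K < z := by
  set δ : ℝ := 1 - K * (3 - 2 * α) with hδ
  have hδ0 : 0 < δ := by rw [hδ]; linarith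
  have hαK : 0 < α * K := mul_pos hα hK
  set η : ℝ := min (1 / 10) (δ / (2 * (1 + 12 * (α * K)))) with hη
  have hη0 : 0 < η := lt_min (by norm_num) (by positivity)
  have hη1 : η ≤ 1 / 10 := min_le_left _ _
  have hη2 : η * (2 * (1 + 12 * (α * K))) ≤ δ := by
    have := min_le_right (1 / 10 : ℝ) (δ / (2 * (1 + 12 * (α * K))))
    rwa [← hη, le_div_iff₀ (by positivity)] at this
  have hμ : 0 < (1 - η) - K * (3 - η - 2 * α * (1 - 6 * η)) + η * K := by
    have e : (1 - η) - K * (3 - η - 2 * α * (1 - 6 * η)) + η * K =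
        δ - η * (1 + 12 * (α * K)) + 2 * (η * K) := by rw [hδ]; ring
    have : 0 < η * K := mul_pos hη0 hK
    rw [e]
    nlinarith
  obtain ⟨x, z, hx, hxz, hco, hN, hr, hm⟩ :=
    core α K η hα hK hη0 hη1 hμ (Real.log (max C 1) + 1) N
  refine ⟨x, z, hx, hxz, hco, hN, ?_⟩
  set n := x * (z - x) * z with hn
  have hr' : (2 : ℝ) ≤ rad n := by exact_mod_cast hr
  have hlr : 0 < Real.log (rad n) := Real.log_pos (by linarith)
  have hH0 : 0 < Hal α n := by
    unfold Hal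
    exact div_pos (by linarith) (Real.rpow_pos_of_pos hlr _)
  have hlH : Real.log (Hal α n) = Real.log (rad n) - α * (n.primeFactors.card : ℝ) *
      Real.log (Real.log (rad n)) := by
    unfold Hal
    rw [Real.log_div (by linarith) (Real.rpow_pos_of_pos hlr _).ne', Real.log_rpow hlr]
  rw [← hlH] at hm
  have hz : (0 : ℝ) < z := by exact_mod_cast (by omega : 0 < z)
  have hM : 0 < max C 1 := lt_of_lt_of_le one_pos (le_max_right _ _)
  have h1 : Real.log (max C 1 * Hal α n ^ K) < Real.log z := by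
    rw [Real.log_mul hM.ne' (Real.rpow_pos_of_pos hH0 _).ne', Real.log_rpow hH0]
    linarith
  have h2 : max C 1 * Hal α n ^ K < z :=
    (Real.log_lt_log_iff (mul_pos hM (Real.rpow_pos_of_pos hH0 _)) hz).1 h1
  exact lt_of_le_of_lt (mul_le_mul_of_nonneg_right (le_max_left _ _)
    (Real.rpow_pos_of_pos hH0 _).le) h2

/-- For `α > 1` the analogue of the question for `H_α` has a negative answer: for every exponent
`K > 0` with `K (3 - 2 α) < 1` (in particular for some `K > 1`) and every `C`, infinitely many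
admissible triples have `c > C H_α(abc) ^ K`. -/
theorem result_A (α K : ℝ) (hα : 0 < α) (hK : 0 < K) (h : K * (3 - 2 * α) < 1) (C : ℝ) :
    {t : ℕ × ℕ × ℕ | 0 < t.1 ∧ 0 < t.2.1 ∧ t.1 + t.2.1 = t.2.2 ∧
      Nat.gcd (Nat.gcd t.1 t.2.1) t.2.2 = 1 ∧
      C * Hal α (t.1 * t.2.1 * t.2.2) ^ K < t.2.2}.Infinite := by
  rw [← Set.not_finite]
  intro hfin
  obtain ⟨B, hB⟩ := (hfin.image (fun t : ℕ × ℕ × ℕ => t.2.2)).bddAbove
  obtain ⟨x, z, hx, hxz, hco, hN, hm⟩ := omega_H α K hα hK h C B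
  have hmem : (x, z - x, z) ∈ {t : ℕ × ℕ × ℕ | 0 < t.1 ∧ 0 < t.2.1 ∧ t.1 + t.2.1 = t.2.2 ∧
      Nat.gcd (Nat.gcd t.1 t.2.1) t.2.2 = 1 ∧
      C * Hal α (t.1 * t.2.1 * t.2.2) ^ K < t.2.2} := by
    refine ⟨hx, by simp; omega, by simp; omega, ?_, hm⟩
    simp only
    apply Nat.eq_one_of_dvd_one
    have h1 : Nat.gcd (Nat.gcd x (z - x)) z ∣ Nat.gcd x z :=
      Nat.dvd_gcd ((Nat.gcd_dvd_left _ _).trans (Nat.gcd_dvd_left _ _)) (Nat.gcd_dvd_right _ _)
    rwa [hco] at h1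
  have h2 : z ≤ B := hB ⟨_, hmem, rfl⟩
  omega

end Pool.Agent.helper22.HA
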