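import Pool.Agent.helper41.EX.Cheb

/-! # The function `H` with a larger exponent of the logarithm: pigeonhole -/

set_option autoImplicit false

namespace Pool.Agent.helper22.HA

open Finset Filter Topology

/-- The radical of `n`: the product of the distinct primes dividing `n`. -/
def rad (n : ℕ) : ℕ := ∏ p ∈ n.primeFactors, p

/-- `Hal α n = rad n / (log (rad n)) ^ (α ω(n))`; `Hal 1` is `H`. -/
noncomputable def Hal (α : ℝ) (n : ℕ) : ℝ :=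
  (rad n : ℝ) / Real.log (rad n) ^ (α * (n.primeFactors.card : ℝ))

theorem prod_pos' {P A : Finset ℕ} (hP : ∀ p ∈ P, p.Prime) (hA : A ⊆ P) : 0 < ∏ p ∈ A, p :=
  prod_pos fun p hp => (hP p (hA hp)).pos

/-- pigeonhole for the products of `k` primes -/
theorem pair (P : Finset ℕ) (hP : ∀ p ∈ P, p.Prime) (k : ℕ) (Y W z0 : ℝ) (hY0 : 0 ≤ Y)
    (hY : ∀ p ∈ P, (p : ℝ) ≤ Y) (hz0 : 0 ≤ z0) (hz : ∀ p ∈ P, z0 ≤ (p : ℝ)) (hW : 0 < W)
    (hN : Y ^ k / W + 1 < ((P.card.choose k : ℕ) : ℝ)) :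
    ∃ A B : Finset ℕ, A ⊆ P ∧ B ⊆ P ∧ Disjoint A B ∧ A.card = B.card ∧ 0 < A.card ∧ A.card ≤ k ∧
      ∏ p ∈ A, p < ∏ p ∈ B, p ∧
      (((∏ p ∈ B, p : ℕ) : ℝ) - ((∏ p ∈ A, p : ℕ) : ℝ)) * z0 ^ (k - A.card) < W := by
  classical
  set s := P.powersetCard k with hs
  have hprod : ∀ F ∈ s, ((∏ p ∈ F, p : ℕ) : ℝ) ≤ Y ^ k := by
    intro F hF
    rw [hs, mem_powersetCard] at hF
    push_cast
    calc ∏ p ∈ F, (p : ℝ) ≤ ∏ _p ∈ F, Y :=
          prod_le_prod (fun p _ => Nat.cast_nonneg p) (fun p hp => hY p (hF.1 hp))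
      _ = Y ^ k := by rw [prod_const, hF.2]
  have h0 : 0 ≤ Y ^ k / W := by positivity
  have hcard : (range (⌊Y ^ k / W⌋₊ + 1)).card < s.card := by
    rw [card_range, hs, card_powersetCard]
    have h1 : (⌊Y ^ k / W⌋₊ : ℝ) ≤ Y ^ k / W := Nat.floor_le h0
    have h2 : ((⌊Y ^ k / W⌋₊ + 1 : ℕ) : ℝ) < ((P.card.choose k : ℕ) : ℝ) := by
      push_cast
      linarith
    exact_mod_cast h2
  have hmaps : ∀ F ∈ s, ⌊((∏ p ∈ F, p : ℕ) : ℝ) / W⌋₊ ∈ range (⌊Y ^ k / W⌋₊ + 1) := by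
    intro F hF
    rw [mem_range, Nat.lt_succ_iff]
    exact Nat.floor_le_floor (div_le_div_of_nonneg_right (hprod F hF) hW.le)
  obtain ⟨F, hF, G, hG, hne, heq⟩ := exists_ne_map_eq_of_card_lt_of_maps_to hcard hmaps
  -- wlog the product over `F` is smaller
  have key : ∀ F ∈ s, ∀ G ∈ s, F ≠ G → ∏ p ∈ F, p ≤ ∏ p ∈ G, p →
      ⌊((∏ p ∈ F, p : ℕ) : ℝ) / W⌋₊ = ⌊((∏ p ∈ G, p : ℕ) : ℝ) / W⌋₊ →
      ∃ A B : Finset ℕ, A ⊆ P ∧ B ⊆ P ∧ Disjoint A B ∧ A.card = B.card ∧ 0 < A.card ∧ A.card ≤ k ∧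
      ∏ p ∈ A, p < ∏ p ∈ B, p ∧
      (((∏ p ∈ B, p : ℕ) : ℝ) - ((∏ p ∈ A, p : ℕ) : ℝ)) * z0 ^ (k - A.card) < W := by
    intro F hF G hG hne hle heq
    rw [hs, mem_powersetCard] at hF hG
    have hcF : (F \ G).card + (F ∩ G).card = k := by rw [card_sdiff_add_card_inter, hF.2]
    have hcG : (G \ F).card + (F ∩ G).card = k := by
      rw [inter_comm, card_sdiff_add_card_inter, hG.2]
    have hAP : F \ G ⊆ P := sdiff_subset.trans hF.1
    have hBP : G \ F ⊆ P := sdiff_subset.trans hG.1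
    have hIP : F ∩ G ⊆ P := inter_subset_left.trans hF.1
    have hdis : Disjoint (F \ G) (G \ F) := disjoint_sdiff_sdiff
    have hpF : (∏ p ∈ F \ G, p) * ∏ p ∈ F ∩ G, p = ∏ p ∈ F, p := by
      rw [← prod_union (disjoint_sdiff_inter F G), sdiff_union_inter]
    have hpG : (∏ p ∈ G \ F, p) * ∏ p ∈ F ∩ G, p = ∏ p ∈ G, p := by
      rw [inter_comm, ← prod_union (disjoint_sdiff_inter G F), sdiff_union_inter]
    have hIpos : 0 < ∏ p ∈ F ∩ G, p := prod_pos' hP hIP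
    have hposA : 0 < (F \ G).card := by
      rw [card_pos, sdiff_nonempty]
      intro hsub
      exact hne (eq_of_subset_of_card_le hsub (by rw [hF.2, hG.2]))
    have hle' : ∏ p ∈ F \ G, p ≤ ∏ p ∈ G \ F, p := by
      rw [← hpF, ← hpG] at hle
      exact Nat.le_of_mul_le_mul_right hle hIpos
    have hneP : ∏ p ∈ F \ G, p ≠ ∏ p ∈ G \ F, p := by
      intro h
      have h1 := congrArg Nat.primeFactors h
      rw [Nat.primeFactors_prod fun p hp => hP p (hAP hp),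
        Nat.primeFactors_prod fun p hp => hP p (hBP hp)] at h1
      rw [h1, disjoint_self_iff_empty] at hdis
      rw [h1, hdis] at hposA
      simp at hposA
    refine ⟨F \ G, G \ F, hAP, hBP, hdis, by omega, hposA, by omega, lt_of_le_of_ne hle' hneP, ?_⟩
    have hk : k - (F \ G).card = (F ∩ G).card := by omega
    rw [hk]
    have hI : z0 ^ (F ∩ G).card ≤ ((∏ p ∈ F ∩ G, p : ℕ) : ℝ) := by
      push_cast
      rw [← prod_const]
      exact prod_le_prod (fun _ _ => hz0) fun p hp => hz p (hIP hp)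
    have hd : 0 ≤ ((∏ p ∈ G \ F, p : ℕ) : ℝ) - ((∏ p ∈ F \ G, p : ℕ) : ℝ) := by
      rw [sub_nonneg]
      exact_mod_cast hle'
    refine (mul_le_mul_of_nonneg_left hI hd).trans_lt ?_
    have e : (((∏ p ∈ G \ F, p : ℕ) : ℝ) - ((∏ p ∈ F \ G, p : ℕ) : ℝ)) * ((∏ p ∈ F ∩ G, p : ℕ) : ℝ) =
        ((∏ p ∈ G, p : ℕ) : ℝ) - ((∏ p ∈ F, p : ℕ) : ℝ) := by
      rw [← hpF, ← hpG]
      push_cast
      ring
    rw [e]
    have f1 : 0 ≤ ((∏ p ∈ F, p : ℕ) : ℝ) / W := by positivity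
    have h1 := Nat.floor_le f1
    have h2 := Nat.lt_floor_add_one (((∏ p ∈ G, p : ℕ) : ℝ) / W)
    rw [← heq] at h2
    have h3 : ((∏ p ∈ G, p : ℕ) : ℝ) / W - ((∏ p ∈ F, p : ℕ) : ℝ) / W < 1 := by linarith
    rwa [← sub_div, div_lt_one hW] at h3
  rcases le_total (∏ p ∈ F, p) (∏ p ∈ G, p) with h | h
  · exact key F hF G hG hne h heq
  · exact key G hG F hF hne.symm h heq.symm

end Pool.Agent.helper22.HA
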