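import Pool.Agent.helper22.HA.Main

/-! # The function `H` with a larger exponent of the logarithm: the triples -/

set_option autoImplicit false

namespace Pool.Agent.helper22.HA

open Finset Filter Topology

theorem choose_lower (n k : ℕ) (q : ℝ) (hq : 0 ≤ q) (hk : 0 < k) (h2 : 2 * k ≤ n)
    (h : q * (2 * k) ≤ n) : q ^ k ≤ ((n.choose k : ℕ) : ℝ) := by
  have h1 : (((n + 1 - k : ℕ) ^ k : ℝ)) ≤ ((n.choose k : ℕ) : ℝ) * (k : ℝ) ^ k := by
    have e1 : (n + 1 - k) ^ k ≤ k.factorial * n.choose k := by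
      have := Nat.pow_sub_le_descFactorial n k
      rwa [Nat.descFactorial_eq_factorial_mul_choose] at this
    have e2 : k.factorial ≤ k ^ k := Nat.factorial_le_pow k
    have e3 : (n + 1 - k) ^ k ≤ n.choose k * k ^ k :=
      e1.trans (by rw [mul_comm]; exact Nat.mul_le_mul_left _ e2)
    have e4 : (((n + 1 - k) ^ k : ℕ) : ℝ) ≤ ((n.choose k * k ^ k : ℕ) : ℝ) := by exact_mod_cast e3
    rw [Nat.cast_mul, Nat.cast_pow, Nat.cast_pow] at e4
    exact e4
  have hkr : (0 : ℝ) < (k : ℝ) := by exact_mod_cast hk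
  have h3 : q * k ≤ ((n + 1 - k : ℕ) : ℝ) := by
    rw [Nat.cast_sub (by omega)]
    push_cast
    have : (2 * k : ℝ) ≤ n := by exact_mod_cast h2
    linarith
  have h4 : (q * k) ^ k ≤ ((n + 1 - k : ℕ) : ℝ) ^ k := pow_le_pow_left₀ (by positivity) h3 k
  rw [mul_pow] at h4
  have h5 := h4.trans h1
  exact le_of_mul_le_mul_right h5 (by positivity)

theorem rad_le {n : ℕ} (hn : n ≠ 0) : rad n ≤ n :=
  Nat.le_of_dvd (Nat.pos_of_ne_zero hn) (Nat.prod_primeFactors_dvd n)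

/-- the real inequality at the end -/
theorem real_end {α K η L m k lz lb lR ll om T : ℝ} (hα : 0 < α) (hK : 0 < K) (_hη : 0 < η)
    (hL : 1 ≤ L) (hm : 0 ≤ m) (hmk : m ≤ k) (hk : 1 ≤ k)
    (hz : m * (1 - η) * L ≤ lz)
    (hb : lb ≤ (1 - 2 * η) * k * L - (k - m) * (1 - η) * L)
    (hR : lR ≤ 2 * m * L + lb) (hll : (1 - 6 * η) * L ≤ ll) (hη6 : 6 * η ≤ 1) (hom : 2 * m ≤ om)
    (hT : T ≤ min (η * K) ((1 - η) - K * (3 - η - 2 * α * (1 - 6 * η)) + η * K) * L)
    (hμ : 0 ≤ min (η * K) ((1 - η) - K * (3 - η - 2 * α * (1 - 6 * η)) + η * K)) :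
    T + K * (lR - α * om * ll) ≤ lz := by
  have h1 : 0 ≤ (1 - 6 * η) * L := mul_nonneg (by linarith) (by linarith)
  have h2 : 2 * m * ((1 - 6 * η) * L) ≤ om * ll :=
    mul_le_mul hom hll h1 (by linarith)
  have h3 : α * (2 * m * ((1 - 6 * η) * L)) ≤ α * (om * ll) := mul_le_mul_of_nonneg_left h2 hα.le
  have h4 : lR - α * om * ll ≤ 2 * m * L + ((1 - 2 * η) * k * L - (k - m) * (1 - η) * L) -
      α * (2 * m * ((1 - 6 * η) * L)) := by
    have e : α * om * ll = α * (om * ll) := by ring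
    rw [e]
    linarith
  have h5 := mul_le_mul_of_nonneg_left h4 hK.le
  set μ := min (η * K) ((1 - η) - K * (3 - η - 2 * α * (1 - 6 * η)) + η * K) with hμd
  have h6 : T ≤ μ * k * L := by
    have : μ * L ≤ μ * k * L := by
      have h7 : μ * 1 ≤ μ * k := mul_le_mul_of_nonneg_left hk hμ
      have h8 := mul_le_mul_of_nonneg_right h7 (by linarith : (0 : ℝ) ≤ L)
      linarith
    linarith
  have h9 : μ * k ≤ m * ((1 - η) - K * (3 - η - 2 * α * (1 - 6 * η))) + η * K * k := by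
    set Q := (1 - η) - K * (3 - η - 2 * α * (1 - 6 * η)) with hQ
    have hk0 : 0 ≤ k := by linarith
    rcases le_total 0 Q with hQ0 | hQ0
    · have g1 : μ * k ≤ η * K * k := mul_le_mul_of_nonneg_right (min_le_left _ _) hk0
      have g2 : 0 ≤ m * Q := mul_nonneg hm hQ0
      linarith
    · have g1 : μ * k ≤ (Q + η * K) * k := mul_le_mul_of_nonneg_right (min_le_right _ _) hk0
      have g2 : k * Q ≤ m * Q := mul_le_mul_of_nonpos_right hmk hQ0
      linarith
  have h10 := mul_le_mul_of_nonneg_right h9 (by linarith : (0 : ℝ) ≤ L)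
  nlinarith [h5, h6, h10, hz]

theorem core (α K η : ℝ) (hα : 0 < α) (hK : 0 < K) (hη0 : 0 < η) (hη : η ≤ 1 / 10)
    (hμ : 0 < (1 - η) - K * (3 - η - 2 * α * (1 - 6 * η)) + η * K) (T : ℝ) (Bd : ℕ) :
    ∃ x z : ℕ, 0 < x ∧ x < z ∧ x.Coprime z ∧ Bd < z ∧ 2 ≤ rad (x * (z - x) * z) ∧
      T + K * (Real.log (rad (x * (z - x) * z)) - α * ((x * (z - x) * z).primeFactors.card : ℝ) *
        Real.log (Real.log (rad (x * (z - x) * z)))) ≤ Real.log z := by
  classical
  obtain ⟨Yc, hYc2, hch⟩ := Pool.Agent.helper41.EX.primes_Ioc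
  set μ := min (η * K) ((1 - η) - K * (3 - η - 2 * α * (1 - 6 * η)) + η * K) with hμd
  have hμ0 : 0 < μ := lt_min (by positivity) hμ
  have t1 : Tendsto (fun y : ℕ => (y : ℝ)) atTop atTop := tendsto_natCast_atTop_atTop
  have t2 : Tendsto (fun y : ℕ => (y : ℝ) ^ η) atTop atTop := (tendsto_rpow_atTop hη0).comp t1
  have t3 : Tendsto (fun y : ℕ => Real.log (y : ℝ)) atTop atTop := Real.tendsto_log_atTop.comp t1
  have ev1 : ∀ᶠ y : ℕ in atTop, 4 * Real.log (y : ℝ) ≤ (y : ℝ) ^ η := by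
    have h := (isLittleO_log_rpow_atTop hη0).bound (show (0 : ℝ) < 1 / 4 by norm_num)
    have h' := t1.eventually h
    filter_upwards [h', t1.eventually_ge_atTop 1] with y hy hy1
    have e1 : 0 ≤ Real.log (y : ℝ) := Real.log_nonneg hy1
    have e2 : 0 ≤ (y : ℝ) ^ η := by positivity
    rw [Real.norm_of_nonneg e1, Real.norm_of_nonneg e2] at hy
    linarith
  have ev2 : ∀ᶠ y : ℕ in atTop, 4 ≤ (y : ℝ) ^ η := t2.eventually_ge_atTop 4
  have ev3 : ∀ᶠ y : ℕ in atTop, 2 / η ≤ (y : ℝ) ^ η := t2.eventually_ge_atTop _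
  have ev4 : ∀ᶠ y : ℕ in atTop, T / μ ≤ Real.log (y : ℝ) := t3.eventually_ge_atTop _
  have ev5 : ∀ᶠ y : ℕ in atTop, 4 * (Bd + 1) ≤ y := eventually_ge_atTop _
  have ev6 : ∀ᶠ y : ℕ in atTop, Yc ≤ y := eventually_ge_atTop _
  have ev7 : ∀ᶠ y : ℕ in atTop, 1 ≤ Real.log (y : ℝ) := t3.eventually_ge_atTop _
  obtain ⟨y, hy1, hy2, hy3, hy4, hy5, hy6, hy7⟩ :=
    (ev1.and (ev2.and (ev3.and (ev4.and (ev5.and (ev6.and ev7)))))).exists
  have hyN : 4 ≤ y := by omega
  set Y : ℝ := (y : ℝ) with hYd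
  have hY4 : 4 ≤ Y := by rw [hYd]; exact_mod_cast hyN
  have hY1 : 1 ≤ Y := by linarith
  have hY0 : 0 < Y := by linarith
  set L : ℝ := Real.log Y with hLd
  set k : ℕ := ⌊Y ^ (1 - 5 * η)⌋₊ with hkd
  set P := (Ioc (y / 4) y).filter Nat.Prime with hPd
  have hPp : ∀ p ∈ P, p.Prime := fun p hp => (mem_filter.1 hp).2
  have hb1 : Y ^ η ≤ Y ^ (1 - 5 * η) := Real.rpow_le_rpow_of_exponent_le hY1 (by linarith)
  have hk1 : (k : ℝ) ≤ Y ^ (1 - 5 * η) := Nat.floor_le (by positivity)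
  have hk2 : Y ^ (1 - 5 * η) < (k : ℝ) + 1 := Nat.lt_floor_add_one _
  have hk3 : Y ^ (1 - 5 * η) / 2 ≤ k := by linarith
  have hk4 : (1 : ℝ) ≤ k := by linarith
  have hk5 : 1 ≤ k := by exact_mod_cast hk4
  have hsplit : Y ^ (1 - η) * Y ^ η = Y := by
    rw [← Real.rpow_add hY0]; simp
  have hz0 : 4 * Y ^ (1 - η) ≤ Y := by
    have : Y ^ (1 - η) * 4 ≤ Y ^ (1 - η) * Y ^ η := mul_le_mul_of_nonneg_left hy2 (by positivity)
    linarith
  have hPz : ∀ p ∈ P, Y ^ (1 - η) ≤ (p : ℝ) := by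
    intro p hp
    have h1 : y / 4 < p := (mem_Ioc.1 (mem_filter.1 hp).1).1
    have h2 : y ≤ 4 * p := by omega
    have h3 : Y ≤ 4 * (p : ℝ) := by rw [hYd]; exact_mod_cast h2
    linarith
  have hPY : ∀ p ∈ P, (p : ℝ) ≤ Y := by
    intro p hp
    have h1 : p ≤ y := (mem_Ioc.1 (mem_filter.1 hp).1).2
    rw [hYd]; exact_mod_cast h1
  have hcard : Y ^ (1 - η) ≤ (P.card : ℝ) := by
    have h1 := hch y (y / 4) hy6 (by omega)
    have h2 : Y ≤ (4 * L) * (P.card : ℝ) := by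
      have : Y / 4 ≤ L * (P.card : ℝ) := h1
      linarith
    have h3 : Y ≤ Y ^ η * (P.card : ℝ) := h2.trans (mul_le_mul_of_nonneg_right hy1 (Nat.cast_nonneg _))
    have h4 : Y ^ η * Y ^ (1 - η) ≤ Y ^ η * (P.card : ℝ) := by
      rw [mul_comm (Y ^ η) (Y ^ (1 - η)), hsplit]; exact h3
    exact le_of_mul_le_mul_left h4 (by positivity)
  -- the number of products
  have hq : Y ^ (3 * η) * (2 * k) ≤ (P.card : ℝ) := by
    have h1 : 2 * (k : ℝ) ≤ Y ^ η * Y ^ (1 - 5 * η) := by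
      have : 2 * (k : ℝ) ≤ 4 * Y ^ (1 - 5 * η) := by linarith
      exact this.trans (mul_le_mul_of_nonneg_right hy2 (by positivity))
    have h2 : Y ^ (3 * η) * (Y ^ η * Y ^ (1 - 5 * η)) = Y ^ (1 - η) := by
      rw [← Real.rpow_add hY0, ← Real.rpow_add hY0]
      congr 1
      ring
    calc Y ^ (3 * η) * (2 * k) ≤ Y ^ (3 * η) * (Y ^ η * Y ^ (1 - 5 * η)) :=
          mul_le_mul_of_nonneg_left h1 (by positivity)
      _ = Y ^ (1 - η) := h2
      _ ≤ _ := hcard
  have hY3 : 1 ≤ Y ^ (3 * η) := Real.one_le_rpow hY1 (by linarith)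
  have h2k : 2 * k ≤ P.card := by
    have : (2 * k : ℝ) ≤ (P.card : ℝ) := by
      have := mul_le_mul_of_nonneg_right hY3 (by positivity : (0 : ℝ) ≤ 2 * (k : ℝ))
      linarith
    exact_mod_cast this
  have hch2 : (Y ^ (3 * η)) ^ k ≤ ((P.card.choose k : ℕ) : ℝ) :=
    choose_lower _ _ _ (by positivity) hk5 h2k hq
  have hN : Y ^ k / (Y ^ (1 - 2 * η)) ^ k + 1 < ((P.card.choose k : ℕ) : ℝ) := by
    have h1 : Y ^ k / (Y ^ (1 - 2 * η)) ^ k = (Y ^ (2 * η)) ^ k := by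
      rw [← div_pow]
      congr 1
      rw [div_eq_iff (by positivity), ← Real.rpow_add hY0]
      simp
    have h2 : (Y ^ (3 * η)) ^ k = (Y ^ (2 * η)) ^ k * (Y ^ η) ^ k := by
      rw [← mul_pow, ← Real.rpow_add hY0]
      congr 2
      ring
    have h3 : 1 ≤ (Y ^ (2 * η)) ^ k := one_le_pow₀ (Real.one_le_rpow hY1 (by linarith))
    have h4 : (4 : ℝ) ≤ (Y ^ η) ^ k := by
      calc (4 : ℝ) ≤ Y ^ η := hy2
        _ = (Y ^ η) ^ 1 := (pow_one _).symm
        _ ≤ (Y ^ η) ^ k := pow_le_pow_right₀ (by linarith) hk5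
    rw [h1]
    rw [h2] at hch2
    nlinarith
  obtain ⟨A, B, hA, hB, hdis, hcAB, hA0, hAk, hlt, hW⟩ :=
    pair P hPp k Y ((Y ^ (1 - 2 * η)) ^ k) (Y ^ (1 - η)) hY0.le hPY (by positivity) hPz
      (by positivity) hN
  set x := ∏ p ∈ A, p with hx
  set z := ∏ p ∈ B, p with hzd
  set m := A.card with hm
  have hx0 : 0 < x := prod_pos' hPp hA
  have hz0' : 0 < z := prod_pos' hPp hB
  have hpx : x.primeFactors = A := Nat.primeFactors_prod fun p hp => hPp p (hA hp)
  have hpz : z.primeFactors = B := Nat.primeFactors_prod fun p hp => hPp p (hB hp)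
  have hcop : x.Coprime z := by
    rw [← Nat.disjoint_primeFactors hx0.ne' hz0'.ne', hpx, hpz]
    exact hdis
  have hm1 : (1 : ℝ) ≤ m := by exact_mod_cast hA0
  -- sizes
  have hxlo : (Y ^ (1 - η)) ^ m ≤ (x : ℝ) := by
    rw [hx, hm, ← prod_const]
    push_cast
    exact prod_le_prod (fun _ _ => by positivity) fun p hp => hPz p (hA hp)
  have hzlo : (Y ^ (1 - η)) ^ m ≤ (z : ℝ) := hxlo.trans (by exact_mod_cast hlt.le)
  have hzup : (z : ℝ) ≤ Y ^ m := by
    rw [hzd, hcAB, ← prod_const]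
    push_cast
    exact prod_le_prod (fun _ _ => Nat.cast_nonneg _) fun p hp => hPY p (hB hp)
  have hlz1 : m * (1 - η) * L ≤ Real.log z := by
    have h1 := Real.log_le_log (by positivity) hzlo
    rw [Real.log_pow, Real.log_rpow hY0] at h1
    rw [hLd]
    linarith
  have hlz2 : Real.log z ≤ m * L := by
    have h1 := Real.log_le_log (by exact_mod_cast hz0') hzup
    rwa [Real.log_pow] at h1
  have hlx1 : Real.log x ≤ m * L := by
    have h1 : Real.log x ≤ Real.log z :=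
      Real.log_le_log (by exact_mod_cast hx0) (by exact_mod_cast hlt.le)
    exact h1.trans hlz2
  set b := z - x with hbd
  have hb0 : 0 < b := by omega
  have hbr : (b : ℝ) = (z : ℝ) - x := by rw [hbd, Nat.cast_sub hlt.le]
  have hlb : Real.log b ≤ (1 - 2 * η) * k * L - (k - m) * (1 - η) * L := by
    have h1 : (b : ℝ) * (Y ^ (1 - η)) ^ (k - m) < (Y ^ (1 - 2 * η)) ^ k := by rw [hbr]; exact hW
    have h2 := Real.log_le_log (by positivity) h1.le
    rw [Real.log_mul (by positivity) (by positivity), Real.log_pow, Real.log_pow,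
      Real.log_rpow hY0, Real.log_rpow hY0, Nat.cast_sub hAk] at h2
    rw [hLd]
    linarith
  have hlb0 : 0 ≤ Real.log b := Real.log_nonneg (by exact_mod_cast hb0)
  have hmk : (m : ℝ) ≤ k := by exact_mod_cast hAk
  have hL0 : 0 < L := by linarith
  have hmη : η * k ≤ m * (1 - η) := by
    have h1 : 0 ≤ ((1 - 2 * η) * k - (k - m) * (1 - η)) * L := by linarith
    have h2 : 0 ≤ (1 - 2 * η) * k - (k - m) * (1 - η) := nonneg_of_mul_nonneg_left h1 hL0
    linarith
  -- the radical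
  set n := x * b * z with hn
  have hn0 : n ≠ 0 := by positivity
  have hpf : n.primeFactors = A ∪ b.primeFactors ∪ B := by
    rw [hn, Nat.primeFactors_mul (by positivity) hz0'.ne', Nat.primeFactors_mul hx0.ne' hb0.ne',
      hpx, hpz]
  have hsub : A ∪ B ⊆ n.primeFactors := by
    rw [hpf]
    intro p hp
    simp only [mem_union] at hp ⊢
    tauto
  have hom : 2 * (m : ℝ) ≤ (n.primeFactors.card : ℝ) := by
    have h1 := card_le_card hsub
    rw [card_union_of_disjoint hdis, ← hcAB] at h1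
    have h2 : 2 * m ≤ n.primeFactors.card := by omega
    exact_mod_cast h2
  have hRz : x * z ≤ rad n := by
    have h1 : ∏ p ∈ A ∪ B, p ≤ ∏ p ∈ n.primeFactors, p :=
      prod_le_prod_of_subset_of_one_le' hsub fun p hp _ => (Nat.pos_of_mem_primeFactors hp)
    rw [prod_union hdis] at h1
    exact h1
  have hRz' : z ≤ rad n := le_trans (Nat.le_mul_of_pos_left z hx0) hRz
  have hRup : rad n ≤ x * b * z := rad_le hn0
  have hz2 : 2 ≤ z := by omega
  have hR2 : 2 ≤ rad n := hz2.trans hRz'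
  have hR0 : (0 : ℝ) < rad n := by exact_mod_cast (by omega : 0 < rad n)
  have hlR : Real.log (rad n) ≤ 2 * m * L + Real.log b := by
    have h1 : (rad n : ℝ) ≤ (x : ℝ) * b * z := by exact_mod_cast hRup
    have h2 := Real.log_le_log hR0 h1
    rw [Real.log_mul (by positivity) (by positivity), Real.log_mul (by positivity) (by positivity)]
      at h2
    linarith
  have hll : (1 - 6 * η) * L ≤ Real.log (Real.log (rad n)) := by
    have h1 : Real.log z ≤ Real.log (rad n) :=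
      Real.log_le_log (by exact_mod_cast hz0') (by exact_mod_cast hRz')
    have h2 : Y ^ (1 - 6 * η) ≤ Real.log (rad n) := by
      have e1 : η * k * L ≤ m * (1 - η) * L := mul_le_mul_of_nonneg_right hmη hL0.le
      have e2 : η * k * 1 ≤ η * k * L := mul_le_mul_of_nonneg_left hy7 (by positivity)
      have e3 : Y ^ (1 - 6 * η) * Y ^ η = Y ^ (1 - 5 * η) := by
        rw [← Real.rpow_add hY0]; congr 1; ring
      have e4 : Y ^ (1 - 6 * η) * (2 / η) ≤ Y ^ (1 - 6 * η) * Y ^ η :=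
        mul_le_mul_of_nonneg_left hy3 (by positivity)
      rw [e3] at e4
      have e5 : Y ^ (1 - 6 * η) ≤ η * (Y ^ (1 - 5 * η) / 2) := by
        have : Y ^ (1 - 6 * η) = η / 2 * (Y ^ (1 - 6 * η) * (2 / η)) := by field_simp
        rw [this]
        have := mul_le_mul_of_nonneg_left e4 (by positivity : (0 : ℝ) ≤ η / 2)
        linarith
      have e6 : η * (Y ^ (1 - 5 * η) / 2) ≤ η * k := mul_le_mul_of_nonneg_left hk3 hη0.le
      linarith
    have h3 := Real.log_le_log (by positivity) h2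
    rwa [Real.log_rpow hY0] at h3
  refine ⟨x, z, hx0, hlt, hcop, ?_, hR2, ?_⟩
  · -- size of z
    obtain ⟨p, hp⟩ := card_pos.1 (by omega : 0 < B.card)
    have h1 : y / 4 < p := (mem_Ioc.1 (mem_filter.1 (hB hp)).1).1
    have h2 : p ≤ z := Nat.le_of_dvd hz0' (dvd_prod_of_mem _ hp)
    omega
  · have hTT : T ≤ μ * L := by
      rw [div_le_iff₀ hμ0] at hy4
      linarith
    have := real_end (T := T) hα hK hη0 hy7 (by linarith : (0 : ℝ) ≤ (m : ℝ)) hmk hk4 hlz1 hlb hlR hll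
      (by linarith) hom hTT hμ0.le
    exact this

end Pool.Agent.helper22.HA
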